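import Pool.Agent.N436.DF.Stm3
import Pool.Agent.N436.DF.All

/-!
Project DF, third batch: closed sets of potential 3, all real edges are inside (clC) and there is a full
vertex outside (clD). helper414.
-/

set_option autoImplicit false

namespace Pool.Agent.N414.DF

open Finset Pool.Agent.N436.DF

variable {V : Type} [DecidableEq V]

theorem r_nn {H : Hub V} (ok : Ok P13 H) (u v : V) : 0 ≤ H.r u v := by
  rcases ok.r01 u v with h | h <;> omega

theorem C3.ok {H : Hub V} {S Z : Finset V} (h : C3 H S Z) : Ok P13 H := h.mc.ok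

theorem not_in {H : Hub V} {S Z : Finset V} (h : C3 H S Z) {u w : V} (hu : u ∈ S) (huZ : u ∉ Z)
    (hw : w ∈ Z) (hr : H.r u w = 1) : False := by
  refine h.cl ⟨w, hw, u, mem_sdiff.2 ⟨hu, huZ⟩, ?_⟩
  rw [h.mc.ok.rsymm]
  exact hr

theorem eE_lt {H : Hub V} (ok : Ok P13 H) {S Z : Finset V} (hZS : Z ⊆ S) {u w : V} (hu : u ∈ S)
    (huZ : u ∉ Z) (hw : w ∈ S) (hr : H.r u w = 1) : eE H Z < eE H S := by
  unfold eE
  have h1 : ∑ a ∈ Z, ∑ b ∈ Z, H.r a b ≤ ∑ a ∈ Z, ∑ b ∈ S, H.r a b :=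
    sum_le_sum fun a _ => sum_le_sum_of_subset_of_nonneg hZS fun b _ _ => r_nn ok a b
  have h2 : ∑ a ∈ insert u Z, ∑ b ∈ S, H.r a b ≤ ∑ a ∈ S, ∑ b ∈ S, H.r a b :=
    sum_le_sum_of_subset_of_nonneg (insert_subset hu hZS)
      fun a _ _ => sum_nonneg fun b _ => r_nn ok a b
  rw [sum_insert huZ] at h2
  have h3 : H.r u w ≤ ∑ b ∈ S, H.r u b := single_le_sum (fun b _ => r_nn ok u b) hw
  rw [hr] at h3
  linarith

theorem clC (hb : S3_base) (hB : S3_clB) (hG : S3_G) : S3_clC := by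
  intro V _ _ H S Z hC u hu w hw hr
  by_contra huZ
  have ok := hC.mc.ok
  obtain ⟨_, _, _, _, h2, _, h7, _⟩ := hB V H S Z hC
  obtain ⟨H', S', ok', hyp', ncol', he⟩ := hG V H Z (bd H S Z) ok (filter_subset _ _) h2
    (fun C hCZ hne => ((hb V H ok).2.2.2.2 S hC.mc).2 C (hCZ.trans hC.sub) hne
      (fun h => hC.nS (Subset.antisymm hC.sub (h ▸ hCZ))) |>.2) h7
  exact ncol' (hC.mc.ih1 H' S' ok' hyp' (he ▸ eE_lt ok hC.sub hu huZ hw hr))

section D

variable {H : Hub V} {S Z : Finset V}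

/-- no real edges at vertices outside `Z` -/
theorem r_zero [Infinite V] (hCC : S3_clC) (hC : C3 H S Z) {z x : V} (hz : z ∈ S \ Z) (hx : x ∈ S) :
    H.r z x = 0 := by
  rcases hC.mc.ok.r01 z x with h | h
  · exact h
  · exact absurd (hCC V H S Z hC z (mem_sdiff.1 hz).1 x hx h) (mem_sdiff.1 hz).2

theorem colQ [Infinite V] (hCC : S3_clC) (hC : C3 H S Z) (i : Bool) :
    ColBy H (S \ Z) (fun _ => i) (fun _ _ => 0) ∧
      ∀ z ∈ S \ Z, load H (S \ Z) (fun _ => i) (fun _ _ => 0) z = 0 := by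
  have hl : ∀ z ∈ S \ Z, load H (S \ Z) (fun _ => i) (fun _ _ => 0) z = 0 := by
    intro z hz
    unfold load
    refine sum_eq_zero fun v hv => ?_
    rw [if_pos rfl]
    exact r_zero hCC hC hz (mem_sdiff.1 hv).1
  refine ⟨⟨fun _ _ => le_refl _, fun u _ v _ h => absurd rfl h, fun u hu => ?_⟩, hl⟩
  rw [hl u hu]
  exact caps_h V P13 H S hC.mc u (mem_sdiff.1 hu).1 i

/-- the colour `i` on `S \ Z`, payments by the vertices outside -/
theorem glueQ [Infinite V] (hCC : S3_clC) (hg : S3_glue) (hC : C3 H S Z) (i : Bool)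
    (f : V → Bool) (p : V → V → ℤ) (hf : ColBy H Z f p)
    (hcap : ∀ z ∈ S \ Z, ∑ x ∈ Z with f x ≠ i, H.m x z ≤ H.c i z) : False := by
  have ok := hC.mc.ok
  obtain ⟨hq, hl⟩ := colQ hCC hC i
  obtain ⟨F, P', hF, _⟩ := hg V H S Z f (fun _ => i) p (fun _ _ => 0) (fun _ _ => 0)
    (fun z x => if f x ≠ i then H.m x z else 0) ok hC.sub hf hq (fun _ _ => le_refl _)
    (fun z x => by
      show 0 ≤ (if f x ≠ i then H.m x z else 0)
      split_ifs
      · exact ok.m_nn _ _
      · exact le_refl _)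
    (fun x hx z hz _ => by
      have h0 : H.r x z = 0 := by
        rw [ok.rsymm]; exact r_zero hCC hC hz (hC.sub hx)
      refine ⟨by rw [h0], ?_⟩
      rw [h0]
      show 0 ≤ (if f x ≠ i then H.m x z else 0)
      split_ifs
      · exact ok.m_nn _ _
      · exact le_refl _)
    (fun x hx z hz h => by
      show H.m x z ≤ 0 + (if f x ≠ i then H.m x z else 0)
      rw [if_pos h, zero_add])
    (fun x hx => by
      rw [sum_const_zero, add_zero]
      exact hf.cap x hx)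
    (fun z hz => by
      rw [hl z hz, zero_add]
      have e : ∑ x ∈ Z, (if f x ≠ i then H.m x z else 0) = ∑ x ∈ Z with f x ≠ i, H.m x z := by
        rw [sum_filter]
      show ∑ x ∈ Z, (if f x ≠ i then H.m x z else 0) ≤ H.c i z
      rw [e]
      exact hcap z hz)
  exact hC.mc.ncol ⟨F, P', hF⟩

end D

theorem clD (hb : S3_base) (hB : S3_clB) (hCC : S3_clC) (hg : S3_glue) : S3_clD := by
  intro V _ _ H S Z hC
  have ok := hC.mc.ok
  obtain ⟨_, h1, _, _, h2, h6, _, _⟩ := hB V H S Z hC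
  have hcaps := caps_h V P13 H S hC.mc
  -- (i)
  have hi : ∀ z ∈ S \ Z, ∀ x ∈ Z, 1 ≤ H.m x z → H.c false z = 0 := by
    intro z hz x hx hm
    by_contra hne
    have hc : 1 ≤ H.c false z := by
      have := hcaps z (mem_sdiff.1 hz).1 false
      omega
    have hxb : x ∈ bd H S Z := by
      refine mem_filter.2 ⟨hx, hm.trans ?_⟩
      exact single_le_sum (fun q _ => ok.m_nn x q) hz
    have hsum := h1 x hxb
    obtain ⟨f, p, hf, hfx, hfy⟩ := h6 x hxb
    refine glueQ hCC hg hC false f p hf fun z' hz' => ?_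
    have e : ∑ y ∈ Z with f y ≠ false, H.m y z' ≤ H.m x z' := by
      have hx' : x ∈ Z.filter (fun y => f y ≠ false) := mem_filter.2 ⟨hx, by rw [hfx]; decide⟩
      rw [← add_sum_erase _ _ hx']
      have h0 : ∑ y ∈ (Z.filter (fun y => f y ≠ false)).erase x, H.m y z' = 0 := by
        refine sum_eq_zero fun y hy => ?_
        obtain ⟨hyx, hy2⟩ := mem_erase.1 hy
        obtain ⟨hyZ, hyf⟩ := mem_filter.1 hy2
        by_contra hm0
        have hm1 : 1 ≤ H.m y z' := by
          have := ok.m_nn y z'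
          omega
        have hyb : y ∈ bd H S Z := by
          refine mem_filter.2 ⟨hyZ, hm1.trans ?_⟩
          exact single_le_sum (fun q _ => ok.m_nn y q) hz'
        exact hyf (hfy y hyb hyx)
      rw [h0, add_zero]
    refine e.trans ?_
    by_cases hzz : z' = z
    · subst hzz
      have h3 : H.m x z' ≤ ∑ q ∈ S \ Z, H.m x q := single_le_sum (fun q _ => ok.m_nn x q) hz'
      omega
    · have h3 : H.m x z + H.m x z' ≤ ∑ q ∈ S \ Z, H.m x q := by
        rw [← add_sum_erase _ _ hz]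
        have h4 : H.m x z' ≤ ∑ q ∈ (S \ Z).erase z, H.m x q :=
          single_le_sum (fun q _ => ok.m_nn x q) (mem_erase.2 ⟨hzz, hz'⟩)
        omega
      have h5 := hcaps z' (mem_sdiff.1 hz').1 false
      omega
  -- (ii)
  have hii : ∃ q ∈ S \ Z, H.c true q + 1 ≤ ∑ x ∈ Z, H.m x q := by
    by_contra hno
    push Not at hno
    have hbne : (bd H S Z).Nonempty := card_pos.1 (by omega)
    obtain ⟨x, hx⟩ := hbne
    obtain ⟨f, p, hf, _, _⟩ := h6 x hx
    refine glueQ hCC hg hC true f p hf fun z hz => ?_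
    have h3 : ∑ y ∈ Z with f y ≠ true, H.m y z ≤ ∑ y ∈ Z, H.m y z :=
      sum_le_sum_of_subset_of_nonneg (filter_subset _ _) fun y _ _ => ok.m_nn y z
    have h4 := hno z hz
    omega
  obtain ⟨q, hq, hcq⟩ := hii
  have h3 := hcaps q (mem_sdiff.1 hq).1 true
  have h4 : ∃ x ∈ Z, 1 ≤ H.m x q := by
    by_contra hno
    push Not at hno
    have : ∑ x ∈ Z, H.m x q ≤ 0 := sum_nonpos fun x hx => by
      have := hno x hx
      omega
    omega
  obtain ⟨x, hx, hmx⟩ := h4
  have h5 := hi q hq x hx hmx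
  have h6' := (hb V H ok).2.2.2.1 q
  have h7 : H.c true q ≤ 1 := ok.c1_le q
  refine ⟨q, hq, h5, by omega, ?_, ?_⟩
  · rw [h6', h5]; omega
  · rw [h6', h5]; omega

end Pool.Agent.N414.DF
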